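import Pool.Agent.H19.SYA.TA

set_option autoImplicit false

/-!
# MP_51eb24_ag, board sya_modules: row TPB
-/

namespace Pool.Agent.H14.SYA

open MvPolynomial Pool.Agent.H2.ST Pool.Agent.H15.TG Pool.Agent.H19.SYA

section

variable {k A : Type} [Field k] [CommRing A] [Algebra k A] {W : ℤ → Submodule k A}

theorem aeval_mem (h : Gr W) {n : ℤ} {a b : A} (ha : a ∈ W n) (hb : b ∈ W n)
    {P : MvPolynomial (Fin 2) k} {d : ℕ} (hP : P.IsHomogeneous d) :
    aeval ![a, b] P ∈ W (d * n) := by
  rw [aeval_def, eval₂_eq]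
  apply Submodule.sum_mem
  intro m hm
  rw [← Algebra.smul_def]
  apply Submodule.smul_mem
  have h1 := prod_mem_gr h m.support (fun i => m i • n) (fun i => (![a, b] : Fin 2 → A) i ^ m i)
    (fun i _ => pow_mem_gr h (by
      fin_cases i
      · exact ha
      · exact hb) _)
  have h2 : ∑ i ∈ m.support, m i • n = d * n := by
    have h3 : m.degree = d := by
      by_contra hc
      exact mem_support_iff.1 hm (hP.coeff_eq_zero hc)
    rw [← h3, Finsupp.degree_apply, Nat.cast_sum, Finset.sum_mul]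
    apply Finset.sum_congr rfl
    intro i _
    rw [nsmul_eq_mul]
  rw [h2] at h1
  exact h1

/-- a homogeneous relation -/
theorem exists_hom (h : Gr W) {n : ℤ} (hn : 0 < n) {a b : A} (ha : a ∈ W n) (hb : b ∈ W n)
    {P : MvPolynomial (Fin 2) k} (hP : P ≠ 0) (h0 : aeval ![a, b] P = 0) :
    ∃ (d : ℕ) (Q : MvPolynomial (Fin 2) k), Q.IsHomogeneous d ∧ Q ≠ 0 ∧ aeval ![a, b] Q = 0 := by
  have hex : ∃ d : ℕ, homogeneousComponent d P ≠ 0 := by
    by_contra hcon
    push Not at hcon
    apply hP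
    rw [← sum_homogeneousComponent P]
    exact Finset.sum_eq_zero fun d _ => hcon d
  obtain ⟨d, hd⟩ := hex
  refine ⟨d, _, homogeneousComponent_isHomogeneous d P, hd, ?_⟩
  have hd2 : d ∈ Finset.range (P.totalDegree + 1) := by
    by_contra hcon
    apply hd
    apply homogeneousComponent_eq_zero
    rw [Finset.mem_range] at hcon
    omega
  have h1 : aeval ![a, b] P =
      ∑ e ∈ Finset.range (P.totalDegree + 1), aeval ![a, b] (homogeneousComponent e P) := by
    conv_lhs => rw [← sum_homogeneousComponent P]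
    rw [map_sum]
  have h2 : cmp h (aeval ![a, b] P) (d * n) = aeval ![a, b] (homogeneousComponent d P) := by
    rw [h1, map_sum, Finsupp.finsetSum_apply, Finset.sum_eq_single d]
    · rw [cmp_of_mem h (aeval_mem h ha hb (homogeneousComponent_isHomogeneous d P)),
        Finsupp.single_eq_same]
    · intro e _ he
      rw [cmp_of_mem h (aeval_mem h ha hb (homogeneousComponent_isHomogeneous e P)),
        Finsupp.single_eq_of_ne]
      intro hc
      apply he
      have := mul_right_cancel₀ hn.ne' hc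
      exact_mod_cast this.symm
    · intro hc
      exact absurd hd2 hc
  rw [← h2, h0, map_zero]
  rfl

/-- two homogeneous elements of the same weight which are dependent are proportional -/
theorem prop_of_dep [IsDomain A] [IsAlgClosed k] (h : Gr W) {n : ℤ} (hn : 0 < n) {a b : A}
    (ha : a ∈ W n) (hb : b ∈ W n) (ha0 : a ≠ 0) (hd : ¬ AlgebraicIndependent k ![a, b]) :
    ∃ c : k, b = c • a := by
  classical
  rw [algebraicIndependent_iff] at hd
  push Not at hd
  obtain ⟨P, hP0, hP⟩ := hd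
  obtain ⟨d, Q, hQ, hQ0, hQe⟩ := exists_hom h hn ha hb hP hP0
  let K := FractionRing A
  have hinj : Function.Injective (algebraMap A K) := IsFractionRing.injective A K
  have haK : algebraMap A K a ≠ 0 := by
    rw [Ne, map_eq_zero_iff _ hinj]
    exact ha0
  set t : K := algebraMap A K b / algebraMap A K a with ht
  have hbt : algebraMap A K b = algebraMap A K a * t := by
    rw [ht, mul_comm, div_mul_cancel₀ _ haK]
  let q : Polynomial k := ∑ m ∈ Q.support, Polynomial.monomial (m 1) (coeff m Q)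
  have hdeg : ∀ m ∈ Q.support, m 0 + m 1 = d := by
    intro m hm
    by_contra hc
    refine mem_support_iff.1 hm (hQ.coeff_eq_zero ?_)
    rw [Finsupp.degree_eq_sum, Fin.sum_univ_two]
    exact hc
  have hq0 : q ≠ 0 := by
    obtain ⟨m, hm⟩ := Finset.nonempty_iff_ne_empty.2 (mt support_eq_empty.1 hQ0)
    intro hq
    have h1 : q.coeff (m 1) = coeff m Q := by
      simp only [q]
      rw [Polynomial.finsetSum_coeff, Finset.sum_eq_single m]
      · rw [Polynomial.coeff_monomial, if_pos rfl]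
      · intro m' hm' hne
        rw [Polynomial.coeff_monomial, if_neg]
        intro hc
        apply hne
        have e1 := hdeg m hm
        have e2 := hdeg m' hm'
        ext i
        fin_cases i
        · change m' 0 = m 0
          omega
        · exact hc
      · intro hc
        exact absurd hm hc
    rw [hq, Polynomial.coeff_zero] at h1
    exact mem_support_iff.1 hm h1.symm
  have hqt : Polynomial.aeval t q = 0 := by
    have h1 : algebraMap A K (aeval ![a, b] Q) = algebraMap A K a ^ d * Polynomial.aeval t q := by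
      simp only [q]
      rw [aeval_def, eval₂_eq', map_sum, map_sum, Finset.mul_sum]
      apply Finset.sum_congr rfl
      intro m hm
      rw [Fin.prod_univ_two, map_mul, map_mul, map_pow, map_pow, Polynomial.aeval_monomial,
        ← IsScalarTower.algebraMap_apply k A K]
      change _ * (algebraMap A K a ^ m 0 * algebraMap A K b ^ m 1) = _
      rw [hbt, mul_pow, ← hdeg m hm, pow_add]
      ring
    rw [hQe, map_zero] at h1
    exact (mul_eq_zero.1 h1.symm).resolve_left (pow_ne_zero _ haK)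
  have halg : IsAlgebraic k t := ⟨q, hq0, hqt⟩
  have hint : IsIntegral k t := halg.isIntegral
  have hmin : (minpoly k t).degree = 1 :=
    IsAlgClosed.degree_eq_one_of_irreducible k (minpoly.irreducible hint)
  obtain ⟨c, hc⟩ := minpoly.mem_range_of_degree_eq_one k t hmin
  refine ⟨c, hinj ?_⟩
  rw [hbt, ← hc, Algebra.smul_def, map_mul, ← IsScalarTower.algebraMap_apply k A K, mul_comm]

/-- elements without components of weight larger than `n` -/
def Fl (h : Gr W) (n : ℤ) : Submodule k A where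
  carrier := {f | ∀ j, n < j → cmp h f j = 0}
  add_mem' := by
    intro f g hf hg j hj
    rw [map_add, Finsupp.add_apply, hf j hj, hg j hj, add_zero]
  zero_mem' := by
    intro j _
    rw [map_zero, Finsupp.zero_apply]
  smul_mem' := by
    intro c f hf j hj
    rw [map_smul, Finsupp.smul_apply, hf j hj, smul_zero]

theorem mem_Fl (h : Gr W) (n : ℤ) (f : A) : f ∈ Fl h n ↔ ∀ j, n < j → cmp h f j = 0 := Iff.rfl

theorem Fl_of_mem (h : Gr W) {a n : ℤ} (ha : a ≤ n) {f : A} (hf : f ∈ W a) : f ∈ Fl h n := by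
  intro j hj
  rw [cmp_of_mem h hf, Finsupp.single_eq_of_ne]
  omega

theorem Fl_mul (h : Gr W) {a b : ℤ} {f g : A} (hf : f ∈ Fl h a) (hg : g ∈ Fl h b) :
    f * g ∈ Fl h (a + b) := by
  rw [← cmp_sum h f, ← cmp_sum h g]
  unfold Finsupp.sum
  rw [Finset.sum_mul_sum]
  apply Submodule.sum_mem
  intro i hi
  apply Submodule.sum_mem
  intro j hj
  have h1 : i ≤ a := by
    by_contra hc
    exact Finsupp.mem_support_iff.1 hi (hf i (by omega))
  have h2 : j ≤ b := by
    by_contra hc
    exact Finsupp.mem_support_iff.1 hj (hg j (by omega))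
  exact Fl_of_mem h (by omega : i + j ≤ a + b) (h.mul _ _ _ _ (cmp_mem h f i) (cmp_mem h g j))

theorem Fl_pow (h : Gr W) {a : ℤ} {f : A} (hf : f ∈ Fl h a) (n : ℕ) : f ^ n ∈ Fl h (n * a) := by
  induction n with
  | zero =>
    rw [pow_zero]
    exact Fl_of_mem h (by simp) h.one
  | succ n ih =>
    rw [pow_succ]
    have := Fl_mul h ih hf
    have e : ((n : ℤ) * a + a) = ((n + 1 : ℕ) : ℤ) * a := by
      push_cast
      ring
    rwa [e] at this

/-- the dimension bound -/
theorem span_bound (h : Gr W) (L : Submodule k A)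
    (h0 : ∀ f ∈ L, f ∈ Fl h 0 → ∃ c : k, f = c • (1 : A))
    (h1 : ∀ n : ℤ, 0 < n → ∀ f ∈ L, ∀ g ∈ L, f ∈ Fl h n → g ∈ Fl h n → cmp h f n ≠ 0 →
      ∃ c : k, cmp h g n = c • cmp h f n) (n : ℕ) :
    ∃ S : Finset A, S.card ≤ n + 1 ∧ ∀ f ∈ L, f ∈ Fl h n → f ∈ Submodule.span k (S : Set A) := by
  classical
  induction n with
  | zero =>
    refine ⟨{1}, by simp, ?_⟩
    intro f hf hf0
    obtain ⟨c, rfl⟩ := h0 f hf (by simpa using hf0)
    apply Submodule.smul_mem
    apply Submodule.subset_span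
    simp
  | succ n ih =>
    obtain ⟨S, hS, hsp⟩ := ih
    by_cases hex : ∃ f ∈ L, f ∈ Fl h ((n + 1 : ℕ) : ℤ) ∧ cmp h f ((n + 1 : ℕ) : ℤ) ≠ 0
    · obtain ⟨f, hfL, hfF, hf0⟩ := hex
      refine ⟨insert f S, (Finset.card_insert_le _ _).trans (by omega), ?_⟩
      intro g hg hgF
      obtain ⟨c, hc⟩ := h1 _ (by positivity) f hfL g hg hfF hgF hf0
      have h2 : g - c • f ∈ Submodule.span k (S : Set A) := by
        apply hsp _ (L.sub_mem hg (L.smul_mem c hfL))
        intro j hj
        rcases eq_or_lt_of_le (show ((n + 1 : ℕ) : ℤ) ≤ j by push_cast; omega) with h3 | h3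
        · rw [← h3, map_sub, map_smul, Finsupp.sub_apply, Finsupp.smul_apply, hc, sub_self]
        · rw [map_sub, map_smul, Finsupp.sub_apply, Finsupp.smul_apply, hfF j h3, hgF j h3,
            smul_zero, sub_zero]
      have h3 : g = (g - c • f) + c • f := by abel
      rw [h3]
      apply Submodule.add_mem
      · refine Submodule.span_mono ?_ h2
        rw [Finset.coe_insert]
        exact Set.subset_insert _ _
      · apply Submodule.smul_mem
        apply Submodule.subset_span
        rw [Finset.coe_insert]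
        exact Set.mem_insert _ _
    · push Not at hex
      refine ⟨S, by omega, ?_⟩
      intro g hg hgF
      apply hsp g hg
      intro j hj
      rcases eq_or_lt_of_le (show ((n + 1 : ℕ) : ℤ) ≤ j by push_cast; omega) with h3 | h3
      · rw [← h3]
        exact hex g hg hgF
      · exact hgF j h3

end

theorem monomials_li {k : Type} [Field k] (a b : ℕ) :
    LinearIndependent k (fun p : Fin a × Fin b =>
      ((X (Sum.inl 0) ^ (p.1 : ℕ) * X (Sum.inl 1) ^ (p.2 : ℕ) : Pol k 2))) := by
  have h1 := (MvPolynomial.basisMonomials (Fin 2 ⊕ Fin 2) k).linearIndependent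
  have h2 := h1.comp (fun p : Fin a × Fin b =>
    (Finsupp.single (Sum.inl 0) (p.1 : ℕ) + Finsupp.single (Sum.inl 1) (p.2 : ℕ) :
      (Fin 2 ⊕ Fin 2) →₀ ℕ)) (by
    rintro ⟨i, j⟩ ⟨i', j'⟩ h
    have e1 := DFunLike.congr_fun h (Sum.inl 0)
    have e2 := DFunLike.congr_fun h (Sum.inl 1)
    simp at e1 e2
    ext
    · exact e1
    · exact e2)
  have h3 : (MvPolynomial.basisMonomials (Fin 2 ⊕ Fin 2) k ∘ fun p : Fin a × Fin b =>
    (Finsupp.single (Sum.inl 0) (p.1 : ℕ) + Finsupp.single (Sum.inl 1) (p.2 : ℕ) :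
      (Fin 2 ⊕ Fin 2) →₀ ℕ)) = (fun p : Fin a × Fin b =>
      ((X (Sum.inl 0) ^ (p.1 : ℕ) * X (Sum.inl 1) ^ (p.2 : ℕ) : Pol k 2))) := by
    funext p
    rw [Function.comp_apply, MvPolynomial.coe_basisMonomials, X_pow_eq_monomial,
      X_pow_eq_monomial, monomial_mul, one_mul]
  rw [← h3]
  exact h2

theorem NC_X {k : Type} [Field k] (i : Fin 2 ⊕ Fin 2) : NC (X i : Pol k 2) := by
  rintro ⟨c, hc⟩
  have h1 := congrArg (pderiv i) hc
  rw [pderiv_X_self, pderiv_C] at h1
  exact one_ne_zero h1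

/-- two independent top components -/
theorem pf_TPB (hTPA : T_TPA) : T_TPB := by
  classical
  intro k _ _ _ W H y w hy
  by_contra hcon
  obtain ⟨hA, hB⟩ := hTPA k W H y w hy
  set h : Gr W := hy.toGr with hh
  have hx0 : (X (Sum.inl 0) : Pol k 2) ∈
      Algebra.adjoin k {(X (Sum.inl 0) : Pol k 2), X (Sum.inl 1)} :=
    Algebra.subset_adjoin (by simp)
  have hx1 : (X (Sum.inl 1) : Pol k 2) ∈
      Algebra.adjoin k {(X (Sum.inl 0) : Pol k 2), X (Sum.inl 1)} :=
    Algebra.subset_adjoin (by simp)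
  obtain ⟨t0, ht0, -, hF0, -⟩ := hA _ hx0 (NC_X _)
  obtain ⟨t1, ht1, -, hF1, -⟩ := hA _ hx1 (NC_X _)
  have hNC : ∀ (f : Pol k 2) (n : ℤ), 0 < n → cmp h f n ≠ 0 → NC f := by
    rintro f n hn hf ⟨c, rfl⟩
    apply hf
    have h1 : (C c : Pol k 2) ∈ W 0 := by
      have h2 : (C c : Pol k 2) = c • 1 := by
        rw [MvPolynomial.smul_eq_C_mul, mul_one]
      rw [h2]
      exact (W 0).smul_mem c h.one
    rw [cmp_of_mem h h1, Finsupp.single_eq_of_ne]
    omega
  have hLN : ∀ f ∈ Algebra.adjoin k {(X (Sum.inl 0) : Pol k 2), X (Sum.inl 1)}, ∀ n : ℤ, 0 < n →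
      f ∈ Fl h n → cmp h f n ≠ 0 → LN (cmp h f n) := by
    intro f hf n hn hfl hne
    obtain ⟨n', hn', hne', hfl', hln⟩ := hA f hf (hNC f n hn hne)
    have h1 : n' = n := by
      rcases lt_trichotomy n' n with h1 | h1 | h1
      · exact absurd (hfl' n h1) hne
      · exact h1
      · exact absurd (hfl n' h1) hne'
    rw [← h1]
    exact hln
  have hb := span_bound h
    (Subalgebra.toSubmodule (Algebra.adjoin k {(X (Sum.inl 0) : Pol k 2), X (Sum.inl 1)}))
    (by
      intro f hf hf0
      by_contra hc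
      obtain ⟨n, hn, hne, -⟩ := hA f hf (by
        rintro ⟨c, rfl⟩
        exact hc ⟨c, by rw [MvPolynomial.smul_eq_C_mul, mul_one]⟩)
      exact hne (hf0 n hn))
    (by
      intro n hn f hf g hg hff hgf hne
      by_contra hc
      have hind : AlgebraicIndependent k ![cmp h f n, cmp h g n] := by
        by_contra hdep
        exact hc (prop_of_dep h hn (cmp_mem h f n) (cmp_mem h g n) hne hdep)
      have hne' : cmp h g n ≠ 0 := by
        intro h0
        exact hc ⟨0, by rw [h0, zero_smul]⟩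
      exact hcon ⟨cmp h f n, cmp h g n, n, n, cmp_mem h f n, cmp_mem h g n, hn, hn,
        hLN f hf n hn hff hne, hLN g hg n hn hgf hne', hB f hf g hg n n hff hgf, hind⟩)
    (4 * t0.toNat * t1.toNat)
  obtain ⟨S, hS, hsp⟩ := hb
  have ha : (t0.toNat : ℤ) = t0 := Int.toNat_of_nonneg ht0.le
  have hb' : (t1.toNat : ℤ) = t1 := Int.toNat_of_nonneg ht1.le
  set a := t0.toNat with ha'
  set b := t1.toNat with hb''
  have hrange : Set.range (fun p : Fin (2 * b + 1) × Fin (2 * a + 1) =>
      ((X (Sum.inl 0) ^ (p.1 : ℕ) * X (Sum.inl 1) ^ (p.2 : ℕ) : Pol k 2))) ≤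
      Submodule.span k (S : Set (Pol k 2)) := by
    rintro _ ⟨⟨i, j⟩, rfl⟩
    apply hsp
    · exact Subalgebra.mul_mem _ (Subalgebra.pow_mem _ hx0 _) (Subalgebra.pow_mem _ hx1 _)
    · have h1 := Fl_mul h (Fl_pow h (show X (Sum.inl 0) ∈ Fl h t0 from hF0) (i : ℕ))
        (Fl_pow h (show X (Sum.inl 1) ∈ Fl h t1 from hF1) (j : ℕ))
      intro l hl
      apply h1 l
      refine lt_of_le_of_lt ?_ hl
      rw [← ha, ← hb']
      have hi : (i : ℕ) ≤ 2 * b := by omega
      have hj : (j : ℕ) ≤ 2 * a := by omega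
      have h2 : (i : ℕ) * a ≤ 2 * b * a := Nat.mul_le_mul_right _ hi
      have h3 : (j : ℕ) * b ≤ 2 * a * b := Nat.mul_le_mul_right _ hj
      have h4 : (i : ℕ) * a + (j : ℕ) * b ≤ 4 * a * b := by
        calc (i : ℕ) * a + (j : ℕ) * b ≤ 2 * b * a + 2 * a * b := Nat.add_le_add h2 h3
          _ = 4 * a * b := by ring
      exact_mod_cast h4
  have hcard := linearIndependent_le_span_aux' _ (monomials_li (k := k) (2 * b + 1) (2 * a + 1))
    (S : Set (Pol k 2)) hrange
  rw [Fintype.card_prod, Fintype.card_fin, Fintype.card_fin] at hcard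
  have hSc : Fintype.card (S : Set (Pol k 2)) = S.card := Fintype.card_coe S
  rw [hSc] at hcard
  have h5 : (2 * b + 1) * (2 * a + 1) ≤ 4 * a * b + 1 := hcard.trans hS
  have h6 : 0 < a := by omega
  have h7 : (2 * b + 1) * (2 * a + 1) = 4 * a * b + 2 * a + 2 * b + 1 := by ring
  omega

end Pool.Agent.H14.SYA
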