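import Pool.Agent.H19.SYA.TA
import Pool.Agent.H14.TG.SMC

set_option autoImplicit false

/-!
# MP_51eb24_ag, board sya_modules: row XPM
-/

namespace Pool.Agent.H14.SYA

open MvPolynomial Pool.Agent.H2.ST Pool.Agent.H15.TG Pool.Agent.H19.SYA
open Pool.Agent.H14.TG (PGr_equiv)

theorem PGr_neg {k : Type} [Field k] {m : ℕ} {W : ℤ → Submodule k (Pol k m)} (h : PGr W) :
    PGr (fun n => W (-n)) :=
  PGr_equiv (AddEquiv.neg ℤ) h

theorem Ada_neg {k : Type} [Field k] {m : ℕ} {W : ℤ → Submodule k (Pol k m)}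
    {y : Fin m ⊕ Fin m → Pol k m} {w : Fin m → ℤ} (h : Ada W y w) :
    Ada (fun n => W (-n)) (Sum.elim (fun i => y (Sum.inr i)) (fun i => -y (Sum.inl i))) w := by
  refine ⟨?_, ?_, ?_, ?_, ?_, ?_⟩
  · intro i
    exact h.hr i
  · intro i
    change -y (Sum.inl i) ∈ W (- -w i)
    rw [neg_neg]
    exact (W (w i)).neg_mem (h.hl i)
  · intro s
    rcases s with i | i
    · exact h.hz _
    · change constantCoeff (-y (Sum.inl i)) = 0
      rw [map_neg, h.hz, neg_zero]
  · intro i j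
    change constantCoeff (br (y (Sum.inr i)) (-y (Sum.inl j))) = if i = j then 1 else 0
    rw [br_neg, br_anti, neg_neg, h.lr]
    by_cases hij : i = j
    · rw [if_pos hij, if_pos hij.symm]
    · rw [if_neg hij, if_neg fun h => hij h.symm]
  · intro i j
    exact h.rr i j
  · intro i j
    change constantCoeff (br (-y (Sum.inl i)) (-y (Sum.inl j))) = 0
    rw [br_neg, br_anti, neg_neg, br_neg, br_anti, neg_neg, h.ll]

/-- restrictions to both planes -/
theorem pf_XPM (hXPL : T_XPL) : T_XPM := by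
  intro k _ _ _ W H y w hy
  obtain ⟨φ, hφ⟩ := hXPL k W y w hy.toPGr hy.ad hy.wp
  obtain ⟨φ', hφ'⟩ := hXPL k (fun n => W (-n)) _ w (PGr_neg hy.toPGr) (Ada_neg hy.ad) hy.wp
  exact ⟨φ, φ', hφ, hφ'⟩

end Pool.Agent.H14.SYA
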